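import Pool.Agent.TH289.K.B3
import Pool.Agent.TH289.L.Def

set_option autoImplicit false

/-!
Job 1512 (helper761): light semiconjugacies, small image paths are small.
-/

open Filter Topology Set Metric unitInterval
open Pool.Agent.H721R2 Pool.Agent.H789R2.AN Pool.Agent.H789R2.GP Pool.Agent.TH289 Pool.Agent.TH289.K
open Pool.Agent.TH289.L

namespace Pool.Agent.TH761.L289

/-- the limit of a sequence of sets along an ultrafilter -/
def ULim {X : Type*} [TopologicalSpace X] (𝒰 : Ultrafilter ℕ) (C : ℕ → Set X) : Set X :=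
  {z | ∀ W ∈ 𝓝 z, ∀ᶠ n in (𝒰 : Filter ℕ), (W ∩ C n).Nonempty}

theorem isClosed_ULim {X : Type*} [TopologicalSpace X] (𝒰 : Ultrafilter ℕ) (C : ℕ → Set X) :
    IsClosed (ULim 𝒰 C) := by
  rw [← isOpen_compl_iff, isOpen_iff_mem_nhds]
  intro z hz
  simp only [ULim, mem_compl_iff, mem_ofPred_eq, not_forall] at hz
  obtain ⟨W, hW, h1⟩ := hz
  obtain ⟨W', hW'W, hW'o, hzW'⟩ := mem_nhds_iff.1 hW
  refine mem_of_superset (hW'o.mem_nhds hzW') fun y hy hyL => h1 ?_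
  filter_upwards [hyL W' (hW'o.mem_nhds hy)] with n hn
  exact hn.mono (inter_subset_inter_left _ hW'W)

theorem mem_ULim {X : Type*} [TopologicalSpace X] (𝒰 : Ultrafilter ℕ) (C : ℕ → Set X) (y : ℕ → X)
    (hy : ∀ᶠ n in (𝒰 : Filter ℕ), y n ∈ C n) (z : X) (h : Tendsto y 𝒰 (𝓝 z)) : z ∈ ULim 𝒰 C := by
  intro W hW
  filter_upwards [hy, h hW] with n h1 h2
  exact ⟨y n, h2, h1⟩

theorem exists_lim {X : Type*} [TopologicalSpace X] [CompactSpace X] (𝒰 : Ultrafilter ℕ)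
    (y : ℕ → X) : ∃ z, Tendsto y 𝒰 (𝓝 z) := by
  have h := isCompact_univ.ultrafilter_le_nhds (𝒰.map y) (by simp)
  obtain ⟨z, _, hz⟩ := h
  exact ⟨z, hz⟩

theorem isPreconnected_ULim {X : Type*} [MetricSpace X] [CompactSpace X] (𝒰 : Ultrafilter ℕ)
    (C : ℕ → Set X) (hC : ∀ n, IsPreconnected (C n)) : IsPreconnected (ULim 𝒰 C) := by
  rw [isPreconnected_closed_iff]
  intro A B hA hB hAB hLA hLB
  by_contra hne
  have hd : Disjoint (ULim 𝒰 C ∩ A) (ULim 𝒰 C ∩ B) := by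
    rw [Set.disjoint_left]
    rintro x ⟨h1, h2⟩ ⟨_, h4⟩
    exact hne ⟨x, h1, h2, h4⟩
  obtain ⟨O1, O2, hO1, hO2, h1, h2, h12⟩ := normal_separation ((isClosed_ULim 𝒰 C).inter hA)
    ((isClosed_ULim 𝒰 C).inter hB) hd
  have hsub : ∀ᶠ n in (𝒰 : Filter ℕ), C n ⊆ O1 ∪ O2 := by
    by_contra hcon
    rw [← Ultrafilter.eventually_not] at hcon
    have hx : ∀ n, ∃ w, ¬ (C n ⊆ O1 ∪ O2) → w ∈ C n ∧ w ∉ O1 ∪ O2 := by
      intro n
      by_cases h : C n ⊆ O1 ∪ O2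
      · exact ⟨hLA.some, fun h' => absurd h h'⟩
      · obtain ⟨w, hw1, hw2⟩ := not_subset.1 h
        exact ⟨w, fun _ => ⟨hw1, hw2⟩⟩
    choose w hw using hx
    obtain ⟨z, hz⟩ := exists_lim 𝒰 w
    have hzL : z ∈ ULim 𝒰 C := mem_ULim 𝒰 C w (hcon.mono fun n hn => (hw n hn).1) z hz
    have hzc : z ∈ (O1 ∪ O2)ᶜ := by
      refine (hO1.union hO2).isClosed_compl.mem_of_tendsto hz ?_
      exact hcon.mono fun n hn => (hw n hn).2
    apply hzc
    rcases hAB hzL with h | h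
    · exact Or.inl (h1 ⟨hzL, h⟩)
    · exact Or.inr (h2 ⟨hzL, h⟩)
  obtain ⟨a, ha⟩ := hLA
  obtain ⟨b, hb⟩ := hLB
  have hea := ha.1 O1 (hO1.mem_nhds (h1 ha))
  have heb := hb.1 O2 (hO2.mem_nhds (h2 hb))
  obtain ⟨n, h3, h4, h5⟩ := (hsub.and (hea.and heb)).exists
  obtain ⟨x, _, hx1, hx2⟩ := hC n O1 O2 hO1 hO2 h3 (by rwa [inter_comm]) (by rwa [inter_comm])
  exact Set.disjoint_left.1 h12 hx1 hx2

theorem closed_rel {X : Type*} [TopologicalSpace X] (𝒰 : Ultrafilter ℕ) (C : ℕ → Set X)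
    (R : Set (X × X)) (hR : IsClosed R) (y : ℕ → X) (x : X) (hy : Tendsto y 𝒰 (𝓝 x))
    (h : ∀ᶠ n in (𝒰 : Filter ℕ), ∀ z ∈ C n, (y n, z) ∈ R) (z : X) (hz : z ∈ ULim 𝒰 C) :
    (x, z) ∈ R := by
  by_contra hcon
  have h1 : Rᶜ ∈ 𝓝 (x, z) := hR.isOpen_compl.mem_nhds hcon
  rw [nhds_prod_eq, mem_prod_iff] at h1
  obtain ⟨U, hU, W, hW, hUW⟩ := h1
  have hyU : ∀ᶠ n in (𝒰 : Filter ℕ), y n ∈ U := hy hU
  obtain ⟨n, h2, h3, w, hw1, hw2⟩ := (h.and (hyU.and (hz W hW))).exists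
  exact hUW (mk_mem_prod h3 hw1) (h2 w hw2)

/-- the continuum belonging to one path -/
theorem one_path {X Y : Type*} [MetricSpace X] [CompactSpace X] [MetricSpace Y] {g : X ≃ₜ X}
    {k : Y ≃ₜ Y} {h : X → Y} {c : ℝ} (hg : LP g c) (H : SC g k h) {ε' : ℝ}
    (hε' : 0 < ε') (ρ : ℝ) (β : C(I, SM g.symm))
    (hβ : ∀ t, SR k.symm ρ (h (β 0).val) (h (β t).val))
    (hbad : ∃ t, ¬ SR g.symm ε' (β 0).val (β t).val) :
    ∃ (C : Set X) (x q : X), IsPreconnected C ∧ x ∈ C ∧ q ∈ C ∧ (∀ z ∈ C, SR g.symm ε' x z) ∧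
      ε' ≤ dist (g x) (g q) ∧ ∀ z ∈ C, dist (h x) (h z) ≤ ρ := by
  classical
  have hex : ∃ N, ∀ t, SR g.symm ε' (g.symm^[N] (β 0).val) (g.symm^[N] (β t).val) := by
    obtain ⟨n, hn⟩ := path_small hg.symm β hε'
    exact ⟨n, hn n le_rfl⟩
  have hN := Nat.find_spec hex
  have hmin' := fun k (hk : k < Nat.find hex) => Nat.find_min hex hk
  set N := Nat.find hex with hNdef
  have hN0 : N ≠ 0 := by
    intro h0
    rw [h0] at hN
    obtain ⟨t, ht⟩ := hbad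
    exact ht (hN t)
  obtain ⟨j, hj⟩ := Nat.exists_eq_succ_of_ne_zero hN0
  have h1 := hmin' j (by omega)
  rw [not_forall] at h1
  obtain ⟨t, ht⟩ := h1
  have e1 : ∀ z : X, g (g.symm^[N] z) = g.symm^[j] z := fun z => by
    rw [hj, Nat.succ_eq_add_one, Function.iterate_succ_apply' g.symm, g.apply_symm_apply]
  have h2 : ε' ≤ dist (g (g.symm^[N] (β 0).val)) (g (g.symm^[N] (β t).val)) := by
    by_contra h3
    push Not at h3
    apply ht
    intro i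
    rcases i with _ | i
    · rw [e1, e1] at h3
      exact h3.le
    · have := hN t i
      rw [hj, Nat.succ_eq_add_one, ← Function.iterate_add_apply, ← Function.iterate_add_apply] at this
      rw [← Function.iterate_add_apply, ← Function.iterate_add_apply]
      rwa [show i + 1 + j = i + (j + 1) by omega]
  refine ⟨range (fun s : I => g.symm^[N] (β s).val), g.symm^[N] (β 0).val, g.symm^[N] (β t).val,
    ?_, ⟨0, rfl⟩, ⟨t, rfl⟩, ?_, h2, ?_⟩
  · exact isPreconnected_range ((SM.continuous_iter_val N).comp β.continuous)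
  · rintro _ ⟨s, rfl⟩
    exact hN s
  · rintro _ ⟨s, rfl⟩
    show dist (h (g.symm^[N] (β 0).val)) (h (g.symm^[N] (β s).val)) ≤ ρ
    rw [H.iter', H.iter']
    exact hβ s N

theorem light_unif {X Y : Type*} [MetricSpace X] [CompactSpace X] [MetricSpace Y] {g : X ≃ₜ X}
    {k : Y ≃ₜ Y} {h : X → Y} {c : ℝ} (hg : LP g c) (H : SC g k h) (hL : Light g.symm h) {ε : ℝ}
    (hε : 0 < ε) : ∃ ρ > 0, ∀ β : C(I, SM g.symm),
      (∀ t, SR k.symm ρ (h (β 0).val) (h (β t).val)) → ∀ t, SR g.symm ε (β 0).val (β t).val := by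
  by_contra hcon
  push Not at hcon
  have hc := hg.c_pos
  set ε' := min ε c with hε'
  have hε'0 : 0 < ε' := lt_min hε hc
  have hseq : ∀ n : ℕ, ∃ (C : Set X) (x q : X), IsPreconnected C ∧ x ∈ C ∧ q ∈ C ∧
      (∀ z ∈ C, SR g.symm ε' x z) ∧ ε' ≤ dist (g x) (g q) ∧
      ∀ z ∈ C, dist (h x) (h z) ≤ 1 / ((n : ℝ) + 1) := by
    intro n
    obtain ⟨β, h1, t, h2⟩ := hcon (1 / ((n : ℝ) + 1)) (by positivity)
    exact one_path hg H hε'0 _ β h1 ⟨t, fun h3 => h2 (h3.mono (min_le_left _ _))⟩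
  choose C x q hCc hx hq hSR hgq hhz using hseq
  let 𝒰 : Ultrafilter ℕ := Filter.hyperfilter ℕ
  have h𝒰 : (𝒰 : Filter ℕ) ≤ atTop := Nat.hyperfilter_le_atTop
  obtain ⟨x₀, hx₀⟩ := exists_lim 𝒰 x
  obtain ⟨q₀, hq₀⟩ := exists_lim 𝒰 q
  have hxL : x₀ ∈ ULim 𝒰 C := mem_ULim 𝒰 C x (Eventually.of_forall hx) x₀ hx₀
  have hqL : q₀ ∈ ULim 𝒰 C := mem_ULim 𝒰 C q (Eventually.of_forall hq) q₀ hq₀
  have hSR₀ : ∀ z ∈ ULim 𝒰 C, SR g.symm ε' x₀ z := fun z hz =>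
    closed_rel 𝒰 C {p | SR g.symm ε' p.1 p.2} (Pool.Agent.W740.TC.Coc.isClosed_SR g.symm ε') x x₀ hx₀
      (Eventually.of_forall hSR) z hz
  have hh₀ : ∀ z ∈ ULim 𝒰 C, h x₀ = h z := by
    intro z hz
    rw [← dist_le_zero]
    refine le_of_forall_pos_le_add fun η hη => ?_
    rw [zero_add]
    have hcl : IsClosed {p : X × X | dist (h p.1) (h p.2) ≤ η} :=
      isClosed_le ((H.cont.comp continuous_fst).dist (H.cont.comp continuous_snd)) continuous_const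
    refine closed_rel 𝒰 C _ hcl x x₀ hx₀ ?_ z hz
    have h1 : ∀ᶠ n : ℕ in atTop, 1 / ((n : ℝ) + 1) < η :=
      (tendsto_order.1 tendsto_one_div_add_atTop_nhds_zero_nat).2 η hη
    refine h𝒰 (h1.mono fun n hn z hz => ?_)
    exact (hhz n z hz).trans hn.le
  have hge : ε' ≤ dist (g x₀) (g q₀) := by
    have h1 : Tendsto (fun n => dist (g (x n)) (g (q n))) 𝒰 (𝓝 (dist (g x₀) (g q₀))) :=
      ((g.continuous.tendsto x₀).comp hx₀).dist ((g.continuous.tendsto q₀).comp hq₀)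
    exact ge_of_tendsto h1 (Eventually.of_forall hgq)
  have hcU : ∀ z ∈ ULim 𝒰 C, ∀ n : ℕ, dist (g.symm^[n] x₀) (g.symm^[n] z) ≤ c * (1 / 2) ^ n :=
    fun z hz n => hg.cU _ _ ((hSR₀ z hz).mono (min_le_right _ _)) n
  have hsub : (ULim 𝒰 C).Subsingleton := by
    refine hL _ (isClosed_ULim 𝒰 C).isCompact (isPreconnected_ULim 𝒰 C hCc) ?_ ?_
    · intro V hV
      rw [nhdsSet_diagonal_eq_uniformity, Metric.mem_uniformity_dist] at hV
      obtain ⟨η, hη, h1⟩ := hV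
      have h2 : Tendsto (fun n : ℕ => 2 * c * (1 / 2 : ℝ) ^ n) atTop (𝓝 0) := by
        have := (tendsto_pow_atTop_nhds_zero_of_lt_one (by norm_num : (0:ℝ) ≤ 1 / 2)
          (by norm_num)).const_mul (2 * c)
        simpa using this
      filter_upwards [(tendsto_order.1 h2).2 η hη] with n hn a ha b hb
      apply h1
      have h3 := hcU a ha n
      have h4 := hcU b hb n
      have h5 := dist_triangle_left (g.symm^[n] a) (g.symm^[n] b) (g.symm^[n] x₀)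
      linarith
    · intro a ha b hb
      rw [← hh₀ a ha, ← hh₀ b hb]
  have h1 : x₀ = q₀ := hsub hxL hqL
  rw [h1, dist_self] at hge
  linarith

end Pool.Agent.TH761.L289
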